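import Pool.Agent.TC.MfdStmts

/-!
# MFD_DCK: the affine symmetries
-/

set_option autoImplicit false

open scoped Manifold ContDiff Topology
open Set

namespace TC

open Lvl

namespace DCK

theorem gaff_apply (h : H5) (b : Fin 8 → ℤ) (s : E8) (i : Fin 8) :
    gaff h b s i = sg (epsS h i) * s i + (if reS (chi12 h) i = 0 then 0 else Real.pi) +
      2 * Real.pi * b i := rfl

theorem glin_apply (h : H5) (s : E8) (i : Fin 8) : glin h s i = sg (epsS h i) * s i := rfl

theorem exp_int (b : ℤ) : Circle.exp (2 * Real.pi * b) = 1 := by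
  have h : (2 * Real.pi * b : ℝ) = 0 + b * (2 * Real.pi) := by ring
  rw [h]
  have := Circle.exp_eq_exp.2 (⟨b, rfl⟩ : ∃ m : ℤ, (0 + b * (2 * Real.pi) : ℝ) = 0 + m * (2 * Real.pi))
  rw [this, Circle.exp_zero]

theorem exp_flip (a b : ZMod 2) (t : ℝ) (k : ℤ) :
    Circle.exp (sg (a + b) * t + (if a = 0 then 0 else Real.pi) + 2 * Real.pi * k) =
      flipC a b (Circle.exp t) := by
  rw [Circle.exp_add, Circle.exp_add, exp_int, mul_one]
  unfold flipC sg
  have hpi : Circle.exp Real.pi = -1 := by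
    apply Circle.ext
    simp [Circle.coe_exp]
  rcases z2_cases a with rfl | rfl
  · simp only [if_true, Circle.exp_zero, mul_one, one_mul]
    split_ifs with h
    · rw [one_mul]
    · rw [neg_one_mul, Circle.exp_neg]
  · have h1 : (1 : ZMod 2) ≠ 0 := by decide
    simp only [if_neg h1, hpi]
    split_ifs with h
    · rw [one_mul, mul_comm]
    · rw [neg_one_mul, Circle.exp_neg, mul_comm]

theorem epsS_four (h : H5) : reS (chi12 h) 4 = 0 ∧ reS (chi12 h) 5 = 0 ∧ reS (chi12 h) 6 = 0 ∧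
    reS (chi12 h) 7 = 0 := by
  refine ⟨?_, ?_, ?_, ?_⟩ <;> simp [reS]

theorem cos_gaff (h : H5) (b : Fin 8 → ℤ) (s : E8) (i : Fin 8) (hi : reS (chi12 h) i = 0) :
    Real.cos (gaff h b s i) = Real.cos (s i) := by
  rw [gaff_apply, if_pos hi, add_zero]
  have h1 : sg (epsS h i) * s i + 2 * Real.pi * b i = sg (epsS h i) * s i + b i * (2 * Real.pi) := by
    ring
  rw [h1, Real.cos_add_int_mul_two_pi]
  unfold sg
  split_ifs
  · rw [one_mul]
  · rw [neg_one_mul, Real.cos_neg]

theorem fs_gaff (h : H5) (b : Fin 8 → ℤ) (s : E8) : fs (gaff h b s) = fs s := by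
  obtain ⟨h4, h5, h6, h7⟩ := epsS_four h
  unfold fs
  rw [cos_gaff h b s 4 h4, cos_gaff h b s 5 h5, cos_gaff h b s 6 h6, cos_gaff h b s 7 h7]

theorem expM_gaff (h : H5) (b : Fin 8 → ℤ) (s : Lv fs) (h0 : fs (gaff h b s.1) = 0) :
    expM (Lv.mk (gaff h b s.1) h0) = h +ᵥ expM s := by
  apply Subtype.ext
  funext i
  rw [vadd5_eq, vadd12_apply]
  exact exp_flip _ _ _ _

theorem expM_eq {s s' : Lv fs} (h : expM s = expM s') (i : Fin 8) :
    ∃ k : ℤ, s.1 i = s'.1 i + k * (2 * Real.pi) := by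
  have h1 : Circle.exp (s.1 i) = Circle.exp (s'.1 i) := congrFun (congrArg Subtype.val h) i
  exact Circle.exp_eq_exp.1 h1

theorem pM_eq {s s' : Lv fs} (h : pM s = pM s') : ∃ h b, gaff h b s.1 = s'.1 := by
  obtain ⟨g, hg⟩ := qM_eq_iff.1 h.symm
  have h0 : fs (gaff g 0 s.1) = 0 := (fs_gaff g 0 s.1).trans s.2
  have h1 : expM s' = expM (Lv.mk (gaff g 0 s.1) h0) := by rw [expM_gaff, hg]
  choose k hk using expM_eq h1
  refine ⟨g, k, ?_⟩
  ext i
  have h2 := hk i
  rw [h2]
  change gaff g k s.1 i = gaff g 0 s.1 i + k i * (2 * Real.pi)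
  rw [gaff_apply, gaff_apply]
  simp only [Pi.zero_apply, Int.cast_zero, mul_zero, add_zero]
  ring

theorem gaff_eq (h : H5) (b : Fin 8 → ℤ) (s : E8) :
    gaff h b s = glin h s + gaff h b 0 := by
  ext i
  rw [PiLp.add_apply, gaff_apply, gaff_apply, glin_apply]
  simp only [PiLp.zero_apply, mul_zero, zero_add]
  ring

theorem hasFDerivAt_gaff (h : H5) (b : Fin 8 → ℤ) (s : E8) :
    HasFDerivAt (gaff h b) (glin h) s := by
  have h1 : gaff h b = fun s => glin h s + gaff h b 0 := funext (gaff_eq h b)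
  rw [h1]
  exact (glin h).hasFDerivAt.add_const _

theorem contDiff_gaff (h : H5) (b : Fin 8 → ℤ) : ContDiff ℝ ∞ (gaff h b) := by
  have h1 : gaff h b = fun s => glin h s + gaff h b 0 := funext (gaff_eq h b)
  rw [h1]
  exact (glin h).contDiff.add contDiff_const

theorem sg_sum (a : Fin 8 → ZMod 2) : ∏ i, sg (a i) = sg (∑ i, a i) := by
  simp only [Fin.prod_univ_eight, Fin.sum_univ_eight, sg_add]

theorem sum_eps (h : H5) : ∑ i, epsS h i = 0 := by
  simp only [Fin.sum_univ_eight, epsS, reS, imS, chi12, AddMonoidHom.coe_mk, ZeroHom.coe_mk]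
  simp only [Matrix.cons_val]
  generalize h 0 = a0
  generalize h 1 = a1
  generalize h 2 = a2
  generalize h 3 = a3
  generalize h 4 = a4
  revert a0 a1 a2 a3 a4
  decide

theorem det_glin (h : H5) : (glin h).det = 1 := by
  have h1 : LinearMap.det ((glin h : E8 →L[ℝ] E8) : E8 →ₗ[ℝ] E8) =
      (Matrix.diagonal fun i => sg (epsS h i)).det := by
    rw [← LinearMap.det_toMatrix (EuclideanSpace.basisFun (Fin 8) ℝ).toBasis]
    congr 1
    ext i j
    rw [LinearMap.toMatrix_apply]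
    simp only [OrthonormalBasis.coe_toBasis, EuclideanSpace.basisFun_apply,
      OrthonormalBasis.coe_toBasis_repr_apply, EuclideanSpace.basisFun_repr,
      ContinuousLinearMap.coe_coe, glin_apply, Matrix.diagonal_apply]
    by_cases hij : i = j
    · subst hij
      simp
    · simp [hij]
  change LinearMap.det ((glin h : E8 →L[ℝ] E8) : E8 →ₗ[ℝ] E8) = 1
  rw [h1, Matrix.det_diagonal, sg_sum, sum_eps, sg_zero]

end DCK

open DCK in
/-- MFD_DCK: the affine symmetries. -/
theorem dck_s : DCK_S :=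
  ⟨fs_gaff, expM_gaff, fun _ _ h => pM_eq h, hasFDerivAt_gaff, det_glin, contDiff_gaff⟩

end TC
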