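import Pool.Agent.TC.MfdStmts

/-!
# Block MFD: the exponential map of the level set (module MFD_EXP)
-/

set_option autoImplicit false

open scoped Manifold ContDiff Topology
open Set

noncomputable section

namespace TC

open Lvl

namespace MFDEXP

/-- The exponential map of the space of the angles. -/
def ex (s : E8) : Fin 8 → Circle := fun i => Circle.exp (s i)

theorem continuous_ex : Continuous ex := by
  unfold ex
  exact continuous_pi fun i => Circle.exp.continuous.comp (by fun_prop)

theorem isOpenMap_ex : IsOpenMap ex := by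
  have h1 : IsOpenMap (Pi.map fun _ : Fin 8 => (Circle.exp : ℝ → Circle)) := by
    refine IsOpenMap.piMap (fun _ => isLocalHomeomorph_circleExp.isOpenMap) ?_
    filter_upwards with i
    intro z
    exact ⟨Complex.arg z, Circle.exp_arg z⟩
  have h2 : IsOpenMap (EuclideanSpace.equiv (Fin 8) ℝ) :=
    (EuclideanSpace.equiv (Fin 8) ℝ).toHomeomorph.isOpenMap
  exact h1.comp h2

theorem continuous_expM : Continuous expM := by
  refine Continuous.subtype_mk ?_ _
  exact continuous_ex.comp continuous_subtype_val

theorem isOpenMap_expM : IsOpenMap expM := by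
  intro U hU
  obtain ⟨V, hV, rfl⟩ := isOpen_induced_iff.1 hU
  have h : expM '' ((Subtype.val : {x : E8 // fs x = 0} → E8) ⁻¹' V) =
      (Subtype.val : {z : Fin 8 → Circle // levelF z = 2} → (Fin 8 → Circle)) ⁻¹' (ex '' V) := by
    ext z
    constructor
    · rintro ⟨s, hs, rfl⟩
      exact ⟨s.1, hs, rfl⟩
    · rintro ⟨s, hs, hz⟩
      have h0 : fs s = 0 := by
        have h1 := levelF_exp s
        have h2 : levelF (ex s) = 2 := by rw [hz]; exact z.2
        have h3 : levelF (fun i => Circle.exp (s i)) = 2 := h2
        linarith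
      exact ⟨Lv.mk s h0, hs, Subtype.ext hz⟩
  rw [h]
  exact (isOpenMap_ex V hV).preimage continuous_subtype_val

/-- The box around `x`. -/
def box (x : E8) : Set E8 := {s | ∀ i, |s i - x i| < Real.pi}

theorem isOpen_box (x : E8) : IsOpen (box x) := by
  unfold box
  rw [Set.ofPred_forall]
  refine isOpen_iInter_of_finite fun i => ?_
  exact isOpen_lt (by fun_prop) continuous_const

theorem injOn_ex (x : E8) : Set.InjOn ex (box x) := by
  intro s hs t ht h
  ext i
  have h1 : Circle.exp (s i) = Circle.exp (t i) := congrFun h i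
  obtain ⟨m, hm⟩ := Circle.exp_eq_exp.1 h1
  have h2 := abs_lt.1 (hs i)
  have h3 := abs_lt.1 (ht i)
  have hpi := Real.pi_pos
  have h4 : |(m : ℝ)| < 1 := by
    rw [abs_lt]
    constructor
    · by_contra hc
      push Not at hc
      nlinarith
    · by_contra hc
      push Not at hc
      nlinarith
  have h5 : m = 0 := by
    have h6 : |m| < 1 := by exact_mod_cast h4
    exact Int.abs_lt_one_iff.1 h6
  rw [h5] at hm
  simpa using hm

end MFDEXP

open MFDEXP in
theorem exp_s : EXP_S := by
  refine ⟨?_, ?_⟩
  · intro z
    let s : E8 := WithLp.toLp 2 fun i => Complex.arg (z.1 i)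
    have hs : (fun i => Circle.exp (s i)) = z.1 := by
      funext i
      exact Circle.exp_arg (z.1 i)
    have h0 : fs s = 0 := by
      have h1 := levelF_exp s
      rw [hs, z.2] at h1
      linarith
    exact ⟨Lv.mk s h0, Subtype.ext hs⟩
  · rw [isLocalHomeomorph_iff_isOpenEmbedding_restrict]
    intro x
    have hopen : IsOpen ((Subtype.val : {x : E8 // fs x = 0} → E8) ⁻¹' box x.1) :=
      (isOpen_box x.1).preimage continuous_subtype_val
    refine ⟨(Subtype.val : {x : E8 // fs x = 0} → E8) ⁻¹' box x.1, hopen.mem_nhds ?_, ?_⟩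
    · intro i
      simp only [sub_self, abs_zero]
      exact Real.pi_pos
    · refine Topology.IsOpenEmbedding.of_continuous_injective_isOpenMap
        (continuous_expM.comp continuous_subtype_val) ?_
        (isOpenMap_expM.comp hopen.isOpenMap_subtype_val)
      rintro ⟨s, hs⟩ ⟨t, ht⟩ h
      have h1 : ex s.1 = ex t.1 := congrArg Subtype.val h
      have h2 : s.1 = t.1 := injOn_ex x.1 hs ht h1
      exact Subtype.ext (Subtype.ext h2)

end TC
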