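import Pool.Agent.TC.MfdStmts

/-!
# MFD_FRM: the frame of the tangent bundle
-/

set_option autoImplicit false

open scoped Manifold ContDiff Topology
open Set

noncomputable section

namespace TC

open Lvl

namespace FRM

theorem trig_pm {x : ℝ} (h : Real.sin x = 0) : Real.cos x = 1 ∨ Real.cos x = -1 := by
  have h1 := Real.sin_sq_add_cos_sq x
  rw [h] at h1
  have h2 : (Real.cos x - 1) * (Real.cos x + 1) = 0 := by nlinarith
  rcases mul_eq_zero.1 h2 with h3 | h3
  · left; linarith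
  · right; linarith

theorem grn_pos (s : E8) (h : fs s = 0) : 0 < grn s := by
  unfold grn
  apply Real.sqrt_pos.2
  by_contra hle
  have h0 : ∑ i, grv s i ^ 2 = 0 :=
    le_antisymm (not_lt.1 hle) (Finset.sum_nonneg fun i _ => sq_nonneg _)
  have e : ∀ i, grv s i = 0 := fun i => by
    have h1 := (Finset.sum_eq_zero_iff_of_nonneg (fun i _ => sq_nonneg (grv s i))).1 h0 i
      (Finset.mem_univ i)
    exact pow_eq_zero_iff (two_ne_zero) |>.1 h1
  have hAB : (2 - Real.cos (s 4) - Real.cos (s 5)) * (2 - Real.cos (s 6) - Real.cos (s 7)) = 2 := by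
    unfold fs at h
    linarith
  have hA : 2 - Real.cos (s 6) - Real.cos (s 7) ≠ 0 := by
    intro h1
    rw [h1] at hAB
    norm_num at hAB
  have hB : 2 - Real.cos (s 4) - Real.cos (s 5) ≠ 0 := by
    intro h1
    rw [h1] at hAB
    norm_num at hAB
  have e0 : (2 - Real.cos (s 6) - Real.cos (s 7)) * Real.sin (s 4) = 0 := e 0
  have e1 : (2 - Real.cos (s 6) - Real.cos (s 7)) * Real.sin (s 5) = 0 := e 1
  have e2 : (2 - Real.cos (s 4) - Real.cos (s 5)) * Real.sin (s 6) = 0 := e 2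
  have e3 : (2 - Real.cos (s 4) - Real.cos (s 5)) * Real.sin (s 7) = 0 := e 3
  have c4 := trig_pm ((mul_eq_zero.1 e0).resolve_left hA)
  have c5 := trig_pm ((mul_eq_zero.1 e1).resolve_left hA)
  have c6 := trig_pm ((mul_eq_zero.1 e2).resolve_left hB)
  have c7 := trig_pm ((mul_eq_zero.1 e3).resolve_left hB)
  rcases c4 with c4 | c4 <;> rcases c5 with c5 | c5 <;> rcases c6 with c6 | c6 <;>
    rcases c7 with c7 | c7 <;> rw [c4, c5, c6, c7] at hAB <;> norm_num at hAB

theorem sum_nuv (s : E8) (h : fs s = 0) :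
    nuv s 0 ^ 2 + nuv s 1 ^ 2 + nuv s 2 ^ 2 + nuv s 3 ^ 2 = 1 := by
  have hp := grn_pos s h
  have h1 : grn s ^ 2 = grv s 0 ^ 2 + grv s 1 ^ 2 + grv s 2 ^ 2 + grv s 3 ^ 2 := by
    unfold grn
    rw [Real.sq_sqrt (Finset.sum_nonneg fun i _ => sq_nonneg _), Fin.sum_univ_four]
  unfold nuv
  rw [div_pow, div_pow, div_pow, div_pow, ← add_div, ← add_div, ← add_div, ← h1]
  exact div_self (by positivity)

theorem fderiv_fs (s w : E8) : fderiv ℝ fs s w =
    grv s 0 * w 4 + grv s 1 * w 5 + grv s 2 * w 6 + grv s 3 * w 7 := by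
  have hp : ∀ i : Fin 8, HasFDerivAt (fun s : E8 => s i)
      (EuclideanSpace.proj i : E8 →L[ℝ] ℝ) s := fun i =>
    (EuclideanSpace.proj i : E8 →L[ℝ] ℝ).hasFDerivAt
  have hc : ∀ i : Fin 8, HasFDerivAt (fun s : E8 => Real.cos (s i))
      (-(Real.sin (s i)) • (EuclideanSpace.proj i : E8 →L[ℝ] ℝ)) s := fun i => (hp i).cos
  have h1 := ((((hasFDerivAt_const (2 : ℝ) s).sub (hc 4)).sub (hc 5)).mul
    (((hasFDerivAt_const (2 : ℝ) s).sub (hc 6)).sub (hc 7))).sub (hasFDerivAt_const (2 : ℝ) s)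
  have h3 : HasFDerivAt fs _ s := h1
  rw [h3.fderiv]
  simp [grv]
  ring

theorem th_zero (s : E8) (v : Fin 7 → ℝ) : th s v 0 = v 0 := rfl
theorem th_one (s : E8) (v : Fin 7 → ℝ) : th s v 1 = cth s v := rfl
theorem th_two (s : E8) (v : Fin 7 → ℝ) : th s v 2 = v 1 := rfl
theorem th_three (s : E8) (v : Fin 7 → ℝ) : th s v 3 = v 2 := rfl
theorem th_four (s : E8) (v : Fin 7 → ℝ) : th s v 4 = v 3 - cth s v * nuv s 0 := rfl
theorem th_five (s : E8) (v : Fin 7 → ℝ) : th s v 5 = v 4 - cth s v * nuv s 1 := rfl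
theorem th_six (s : E8) (v : Fin 7 → ℝ) : th s v 6 = v 5 - cth s v * nuv s 2 := rfl
theorem th_seven (s : E8) (v : Fin 7 → ℝ) : th s v 7 = v 6 - cth s v * nuv s 3 := rfl

theorem cos_sg (a : ZMod 2) (x : ℝ) (b : ℤ) :
    Real.cos (sg a * x + 0 + 2 * Real.pi * b) = Real.cos x := by
  rw [add_zero, mul_comm (2 * Real.pi) (b : ℝ), Real.cos_add_int_mul_two_pi]
  rcases z2_cases a with rfl | rfl
  · simp [sg]
  · simp [sg]

theorem sin_sg (a : ZMod 2) (x : ℝ) (b : ℤ) :
    Real.sin (sg a * x + 0 + 2 * Real.pi * b) = sg a * Real.sin x := by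
  rw [add_zero, mul_comm (2 * Real.pi) (b : ℝ), Real.sin_add_int_mul_two_pi]
  rcases z2_cases a with rfl | rfl
  · simp [sg]
  · simp [sg]

theorem gaff_apply (h : H5) (b : Fin 8 → ℤ) (s : E8) (i : Fin 8) : gaff h b s i =
    sg (epsS h i) * s i + (if reS (chi12 h) i = 0 then 0 else Real.pi) + 2 * Real.pi * b i := rfl

theorem re4 (h : H5) : reS (chi12 h) 4 = 0 := rfl
theorem re5 (h : H5) : reS (chi12 h) 5 = 0 := rfl
theorem re6 (h : H5) : reS (chi12 h) 6 = 0 := rfl
theorem re7 (h : H5) : reS (chi12 h) 7 = 0 := rfl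

theorem eps0 (h : H5) : epsS h 0 = 0 := by
  show h 0 + h 0 = 0
  generalize h 0 = a
  revert a; decide

theorem eps1 (h : H5) : epsS h 1 = 0 := by
  show h 1 + h 1 = 0
  generalize h 1 = a
  revert a; decide

theorem eps2 (h : H5) : epsS h 2 = chi7 h 1 := by
  show h 2 + (h 2 + h 1) = h 1
  generalize h 2 = a
  generalize h 1 = b
  revert a b; decide

theorem eps3 (h : H5) : epsS h 3 = chi7 h 2 := by
  show h 3 + (h 3 + h 0) = h 0
  generalize h 3 = a
  generalize h 0 = b
  revert a b; decide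

theorem eps4 (h : H5) : epsS h 4 = chi7 h 3 := by
  show 0 + h 4 = h 4
  rw [zero_add]

theorem eps5 (h : H5) : epsS h 5 = chi7 h 4 := by
  show 0 + (h 4 + h 3) = h 4 + h 3
  rw [zero_add]

theorem eps6 (h : H5) : epsS h 6 = chi7 h 5 := by
  show 0 + (h 4 + h 2) = h 4 + h 2
  rw [zero_add]

theorem eps7 (h : H5) : epsS h 7 = chi7 h 6 := by
  show 0 + (h 4 + h 0 + h 1 + h 2 + h 3) = h 4 + h 0 + h 1 + h 2 + h 3
  rw [zero_add]

theorem grv_gaff (h : H5) (b : Fin 8 → ℤ) (s : E8) :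
    grv (gaff h b s) 0 = sg (chi7 h 3) * grv s 0 ∧ grv (gaff h b s) 1 = sg (chi7 h 4) * grv s 1 ∧
    grv (gaff h b s) 2 = sg (chi7 h 5) * grv s 2 ∧
    grv (gaff h b s) 3 = sg (chi7 h 6) * grv s 3 := by
  have g4 : gaff h b s 4 = sg (chi7 h 3) * s 4 + 0 + 2 * Real.pi * b 4 := by
    rw [gaff_apply, if_pos (re4 h), eps4]
  have g5 : gaff h b s 5 = sg (chi7 h 4) * s 5 + 0 + 2 * Real.pi * b 5 := by
    rw [gaff_apply, if_pos (re5 h), eps5]
  have g6 : gaff h b s 6 = sg (chi7 h 5) * s 6 + 0 + 2 * Real.pi * b 6 := by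
    rw [gaff_apply, if_pos (re6 h), eps6]
  have g7 : gaff h b s 7 = sg (chi7 h 6) * s 7 + 0 + 2 * Real.pi * b 7 := by
    rw [gaff_apply, if_pos (re7 h), eps7]
  refine ⟨?_, ?_, ?_, ?_⟩
  · show (2 - Real.cos (gaff h b s 6) - Real.cos (gaff h b s 7)) * Real.sin (gaff h b s 4) =
      sg (chi7 h 3) * ((2 - Real.cos (s 6) - Real.cos (s 7)) * Real.sin (s 4))
    rw [g4, g6, g7, cos_sg, cos_sg, sin_sg]; ring
  · show (2 - Real.cos (gaff h b s 6) - Real.cos (gaff h b s 7)) * Real.sin (gaff h b s 5) =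
      sg (chi7 h 4) * ((2 - Real.cos (s 6) - Real.cos (s 7)) * Real.sin (s 5))
    rw [g5, g6, g7, cos_sg, cos_sg, sin_sg]; ring
  · show (2 - Real.cos (gaff h b s 4) - Real.cos (gaff h b s 5)) * Real.sin (gaff h b s 6) =
      sg (chi7 h 5) * ((2 - Real.cos (s 4) - Real.cos (s 5)) * Real.sin (s 6))
    rw [g4, g5, g6, cos_sg, cos_sg, sin_sg]; ring
  · show (2 - Real.cos (gaff h b s 4) - Real.cos (gaff h b s 5)) * Real.sin (gaff h b s 7) =
      sg (chi7 h 6) * ((2 - Real.cos (s 4) - Real.cos (s 5)) * Real.sin (s 7))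
    rw [g4, g5, g7, cos_sg, cos_sg, sin_sg]; ring

theorem grn_gaff (h : H5) (b : Fin 8 → ℤ) (s : E8) : grn (gaff h b s) = grn s := by
  obtain ⟨h0, h1, h2, h3⟩ := grv_gaff h b s
  unfold grn
  rw [Fin.sum_univ_four, Fin.sum_univ_four, h0, h1, h2, h3]
  congr 1
  have q : ∀ a : ZMod 2, ∀ x : ℝ, (sg a * x) ^ 2 = x ^ 2 := fun a x => by
    rw [mul_pow, sq (sg a), sg_mul_self, one_mul]
  rw [q, q, q, q]

theorem nuv_gaff (h : H5) (b : Fin 8 → ℤ) (s : E8) :
    nuv (gaff h b s) 0 = sg (chi7 h 3) * nuv s 0 ∧ nuv (gaff h b s) 1 = sg (chi7 h 4) * nuv s 1 ∧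
    nuv (gaff h b s) 2 = sg (chi7 h 5) * nuv s 2 ∧
    nuv (gaff h b s) 3 = sg (chi7 h 6) * nuv s 3 := by
  obtain ⟨h0, h1, h2, h3⟩ := grv_gaff h b s
  unfold nuv
  rw [h0, h1, h2, h3, grn_gaff, mul_div_assoc, mul_div_assoc, mul_div_assoc, mul_div_assoc]
  exact ⟨rfl, rfl, rfl, rfl⟩

theorem cth_gaff (h : H5) (b : Fin 8 → ℤ) (s : E8) (v : Fin 7 → ℝ) :
    cth (gaff h b s) (sgv (chi7 h) v) = cth s v := by
  obtain ⟨h0, h1, h2, h3⟩ := nuv_gaff h b s
  unfold cth
  rw [h0, h1, h2, h3]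
  simp only [sgv]
  have q : ∀ a : ZMod 2, ∀ x y : ℝ, sg a * x * (sg a * y) = x * y := fun a x y => by
    rw [mul_mul_mul_comm, sg_mul_self, one_mul]
  rw [q, q, q, q]

theorem glin_apply (h : H5) (s : E8) (i : Fin 8) : glin h s i = sg (epsS h i) * s i := rfl

theorem single_ne (s : E8) (t : ℝ) (i : Fin 8) (hi : i ≠ 0) :
    (s + EuclideanSpace.single 0 t : E8) i = s i := by
  rw [PiLp.add_apply, EuclideanSpace.single_apply, if_neg hi, add_zero]

theorem continuous_grv (i : Fin 4) : Continuous fun s : E8 => grv s i := by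
  have hp : ∀ i : Fin 8, Continuous fun s : E8 => s i := fun i =>
    (EuclideanSpace.proj i : E8 →L[ℝ] ℝ).continuous
  have hc : ∀ i : Fin 8, Continuous fun s : E8 => Real.cos (s i) := fun i =>
    Real.continuous_cos.comp (hp i)
  have hs : ∀ i : Fin 8, Continuous fun s : E8 => Real.sin (s i) := fun i =>
    Real.continuous_sin.comp (hp i)
  fin_cases i
  · exact ((continuous_const.sub (hc 6)).sub (hc 7)).mul (hs 4)
  · exact ((continuous_const.sub (hc 6)).sub (hc 7)).mul (hs 5)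
  · exact ((continuous_const.sub (hc 4)).sub (hc 5)).mul (hs 6)
  · exact ((continuous_const.sub (hc 4)).sub (hc 5)).mul (hs 7)

theorem continuous_grn : Continuous grn :=
  Real.continuous_sqrt.comp (continuous_finsetSum _ fun i _ => (continuous_grv i).pow 2)

theorem continuous_val : Continuous fun s : Lv fs => (s.1 : E8) := continuous_subtype_val

theorem continuous_nuv (i : Fin 4) : Continuous fun s : Lv fs => nuv s.1 i :=
  ((continuous_grv i).comp continuous_val).div (continuous_grn.comp continuous_val)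
    fun s => (grn_pos s.1 s.2).ne'

end FRM

open FRM in
/-- MFD_FRM. -/
theorem frm_s : FRM_S := by
  refine ⟨?_, ?_, ?_, ?_, ?_, ?_⟩
  · have hv : ∀ i : Fin 7, Continuous fun p : Lv fs × (Fin 7 → ℝ) => p.2 i := fun i =>
      (continuous_apply i).comp continuous_snd
    have hn : ∀ i : Fin 4, Continuous fun p : Lv fs × (Fin 7 → ℝ) => nuv p.1.1 i := fun i =>
      (continuous_nuv i).comp continuous_fst
    have hc : Continuous fun p : Lv fs × (Fin 7 → ℝ) => cth p.1.1 p.2 :=
      ((((hv 3).mul (hn 0)).add ((hv 4).mul (hn 1))).add ((hv 5).mul (hn 2))).add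
        ((hv 6).mul (hn 3))
    refine (PiLp.continuous_toLp 2 _).comp (continuous_pi fun i => ?_)
    fin_cases i
    · exact hv 0
    · exact hc
    · exact hv 1
    · exact hv 2
    · exact (hv 3).sub (hc.mul (hn 0))
    · exact (hv 4).sub (hc.mul (hn 1))
    · exact (hv 5).sub (hc.mul (hn 2))
    · exact (hv 6).sub (hc.mul (hn 3))
  · intro s
    have ha : ∀ v w, cth s (v + w) = cth s v + cth s w := fun v w => by
      simp only [cth, Pi.add_apply]; ring
    have hm : ∀ (c : ℝ) v, cth s (c • v) = c * cth s v := fun c v => by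
      simp only [cth, Pi.smul_apply, smul_eq_mul]; ring
    constructor
    · intro v w
      ext i
      rw [PiLp.add_apply]
      fin_cases i
      · exact rfl
      · exact ha v w
      · exact rfl
      · exact rfl
      · show (v + w) 3 - cth s (v + w) * nuv s 0 =
          (v 3 - cth s v * nuv s 0) + (w 3 - cth s w * nuv s 0)
        rw [ha, Pi.add_apply]; ring
      · show (v + w) 4 - cth s (v + w) * nuv s 1 =
          (v 4 - cth s v * nuv s 1) + (w 4 - cth s w * nuv s 1)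
        rw [ha, Pi.add_apply]; ring
      · show (v + w) 5 - cth s (v + w) * nuv s 2 =
          (v 5 - cth s v * nuv s 2) + (w 5 - cth s w * nuv s 2)
        rw [ha, Pi.add_apply]; ring
      · show (v + w) 6 - cth s (v + w) * nuv s 3 =
          (v 6 - cth s v * nuv s 3) + (w 6 - cth s w * nuv s 3)
        rw [ha, Pi.add_apply]; ring
    · intro c v
      ext i
      rw [PiLp.smul_apply, smul_eq_mul]
      fin_cases i
      · exact rfl
      · exact hm c v
      · exact rfl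
      · exact rfl
      · show (c • v) 3 - cth s (c • v) * nuv s 0 = c * (v 3 - cth s v * nuv s 0)
        rw [hm, Pi.smul_apply, smul_eq_mul]; ring
      · show (c • v) 4 - cth s (c • v) * nuv s 1 = c * (v 4 - cth s v * nuv s 1)
        rw [hm, Pi.smul_apply, smul_eq_mul]; ring
      · show (c • v) 5 - cth s (c • v) * nuv s 2 = c * (v 5 - cth s v * nuv s 2)
        rw [hm, Pi.smul_apply, smul_eq_mul]; ring
      · show (c • v) 6 - cth s (c • v) * nuv s 3 = c * (v 6 - cth s v * nuv s 3)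
        rw [hm, Pi.smul_apply, smul_eq_mul]; ring
  · intro s v
    have hp := grn_pos s.1 s.2
    have hn := sum_nuv s.1 s.2
    have hg : ∀ i, grv s.1 i = grn s.1 * nuv s.1 i := fun i => by
      unfold nuv
      field_simp
    rw [fderiv_fs, th_four, th_five, th_six, th_seven, hg, hg, hg, hg]
    have hc : cth s.1 v =
      v 3 * nuv s.1 0 + v 4 * nuv s.1 1 + v 5 * nuv s.1 2 + v 6 * nuv s.1 3 := rfl
    have e : grn s.1 * nuv s.1 0 * (v 3 - cth s.1 v * nuv s.1 0) +
        grn s.1 * nuv s.1 1 * (v 4 - cth s.1 v * nuv s.1 1) +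
        grn s.1 * nuv s.1 2 * (v 5 - cth s.1 v * nuv s.1 2) +
        grn s.1 * nuv s.1 3 * (v 6 - cth s.1 v * nuv s.1 3) =
        grn s.1 * ((v 3 * nuv s.1 0 + v 4 * nuv s.1 1 + v 5 * nuv s.1 2 + v 6 * nuv s.1 3) -
          cth s.1 v * (nuv s.1 0 ^ 2 + nuv s.1 1 ^ 2 + nuv s.1 2 ^ 2 + nuv s.1 3 ^ 2)) := by
      ring
    rw [e, hn, ← hc]
    ring
  · intro s v w hvw
    have h : ∀ i : Fin 8, th s.1 v i = th s.1 w i := fun i => by rw [hvw]
    have h0 := h 0
    have h1 := h 1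
    have h2 := h 2
    have h3 := h 3
    have h4 := h 4
    have h5 := h 5
    have h6 := h 6
    have h7 := h 7
    rw [th_zero, th_zero] at h0
    rw [th_one, th_one] at h1
    rw [th_two, th_two] at h2
    rw [th_three, th_three] at h3
    rw [th_four, th_four, h1] at h4
    rw [th_five, th_five, h1] at h5
    rw [th_six, th_six, h1] at h6
    rw [th_seven, th_seven, h1] at h7
    funext i
    fin_cases i
    · exact h0
    · exact h2
    · exact h3
    · show v 3 = w 3
      linarith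
    · show v 4 = w 4
      linarith
    · show v 5 = w 5
      linarith
    · show v 6 = w 6
      linarith
  · intro h b s v
    obtain ⟨n0, n1, n2, n3⟩ := nuv_gaff h b s.1
    have hc := cth_gaff h b s.1 v
    ext i
    rw [glin_apply]
    fin_cases i
    · show sg (chi7 h 0) * v 0 = sg (epsS h 0) * v 0
      rw [eps0]
      rfl
    · show cth (gaff h b s.1) (sgv (chi7 h) v) = sg (epsS h 1) * cth s.1 v
      rw [eps1, hc, sg_zero, one_mul]
    · show sg (chi7 h 1) * v 1 = sg (epsS h 2) * v 1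
      rw [eps2]
    · show sg (chi7 h 2) * v 2 = sg (epsS h 3) * v 2
      rw [eps3]
    · show sg (chi7 h 3) * v 3 - cth (gaff h b s.1) (sgv (chi7 h) v) * nuv (gaff h b s.1) 0 =
        sg (epsS h 4) * (v 3 - cth s.1 v * nuv s.1 0)
      rw [eps4, hc, n0]; ring
    · show sg (chi7 h 4) * v 4 - cth (gaff h b s.1) (sgv (chi7 h) v) * nuv (gaff h b s.1) 1 =
        sg (epsS h 5) * (v 4 - cth s.1 v * nuv s.1 1)
      rw [eps5, hc, n1]; ring
    · show sg (chi7 h 5) * v 5 - cth (gaff h b s.1) (sgv (chi7 h) v) * nuv (gaff h b s.1) 2 =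
        sg (epsS h 6) * (v 5 - cth s.1 v * nuv s.1 2)
      rw [eps6, hc, n2]; ring
    · show sg (chi7 h 6) * v 6 - cth (gaff h b s.1) (sgv (chi7 h) v) * nuv (gaff h b s.1) 3 =
        sg (epsS h 7) * (v 6 - cth s.1 v * nuv s.1 3)
      rw [eps7, hc, n3]; ring
  · intro s t v
    have e4 := single_ne s t 4 (by decide)
    have e5 := single_ne s t 5 (by decide)
    have e6 := single_ne s t 6 (by decide)
    have e7 := single_ne s t 7 (by decide)
    have hg : grv (s + EuclideanSpace.single 0 t) = grv s := by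
      unfold grv
      rw [e4, e5, e6, e7]
    have hn : grn (s + EuclideanSpace.single 0 t) = grn s := by
      unfold grn
      rw [hg]
    have hu : nuv (s + EuclideanSpace.single 0 t) = nuv s := by
      funext i
      unfold nuv
      rw [hg, hn]
    unfold th cth
    rw [hu]

end TC
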