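import Pool.Agent.TC.MfdStmts

/-!
# MFD_REG: `fs` is smooth and `0` is a regular value
-/

set_option autoImplicit false

open scoped Manifold ContDiff Topology
open Set

noncomputable section

namespace TC

namespace REG

theorem proj_contDiff (i : Fin 8) : ContDiff ℝ ∞ (fun s : E8 => s i) :=
  (EuclideanSpace.proj (𝕜 := ℝ) i : E8 →L[ℝ] ℝ).contDiff

theorem cos_contDiff (i : Fin 8) : ContDiff ℝ ∞ (fun s : E8 => Real.cos (s i)) :=
  Real.contDiff_cos.comp (proj_contDiff i)

theorem fs_contDiff : ContDiff ℝ ∞ fs := by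
  unfold fs
  exact (((contDiff_const.sub (cos_contDiff 4)).sub (cos_contDiff 5)).mul
    ((contDiff_const.sub (cos_contDiff 6)).sub (cos_contDiff 7))).sub contDiff_const

/-- The derivative of the coordinate function. -/
abbrev pr (i : Fin 8) : E8 →L[ℝ] ℝ := EuclideanSpace.proj (𝕜 := ℝ) i

theorem cos_deriv (i : Fin 8) (s : E8) :
    HasFDerivAt (fun s : E8 => Real.cos (s i)) (-Real.sin (s i) • pr i) s :=
  (pr i).hasFDerivAt.cos

theorem fs_deriv (s : E8) : HasFDerivAt fs
    ((2 - Real.cos (s 4) - Real.cos (s 5)) •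
        (Real.sin (s 6) • pr 6 + Real.sin (s 7) • pr 7) +
      (2 - Real.cos (s 6) - Real.cos (s 7)) •
        (Real.sin (s 4) • pr 4 + Real.sin (s 5) • pr 5)) s := by
  have h1 := (((hasFDerivAt_const (2 : ℝ) s).sub (cos_deriv 4 s)).sub (cos_deriv 5 s)).mul
    (((hasFDerivAt_const (2 : ℝ) s).sub (cos_deriv 6 s)).sub (cos_deriv 7 s))
  have h2 := h1.sub (hasFDerivAt_const (2 : ℝ) s)
  refine h2.congr_fderiv ?_
  ext v
  simp
  ring

theorem pr_single (i j : Fin 8) : pr i (EuclideanSpace.single j (1 : ℝ)) = if i = j then 1 else 0 := by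
  simp [pr]

theorem pm_one {x : ℝ} (h : Real.sin x = 0) : Real.cos x = 1 ∨ Real.cos x = -1 := by
  have h1 := Real.sin_sq_add_cos_sq x
  rw [h] at h1
  have h2 : (Real.cos x - 1) * (Real.cos x + 1) = 0 := by linarith
  rcases mul_eq_zero.mp h2 with h3 | h3
  · left; linarith
  · right; linarith

end REG

open REG in
/-- MFD_REG: `fs` is smooth and `0` is a regular value. -/
theorem reg_s : REG_S := by
  refine ⟨fs_contDiff, ?_⟩
  intro s hs hd
  rw [(fs_deriv s).fderiv] at hd
  have key : ∀ i : Fin 8, (2 - Real.cos (s 4) - Real.cos (s 5)) *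
      (Real.sin (s 6) * (if (6 : Fin 8) = i then 1 else 0) +
        Real.sin (s 7) * (if (7 : Fin 8) = i then 1 else 0)) +
      (2 - Real.cos (s 6) - Real.cos (s 7)) *
      (Real.sin (s 4) * (if (4 : Fin 8) = i then 1 else 0) +
        Real.sin (s 5) * (if (5 : Fin 8) = i then 1 else 0)) = 0 := by
    intro i
    have h1 := DFunLike.congr_fun hd (EuclideanSpace.single i (1 : ℝ))
    simp only [add_apply, smul_apply, pr_single, smul_eq_mul] at h1
    exact h1
  have h4 := key 4
  have h5 := key 5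
  have h6 := key 6
  have h7 := key 7
  simp at h4 h5 h6 h7
  have hAB : (2 - Real.cos (s 4) - Real.cos (s 5)) * (2 - Real.cos (s 6) - Real.cos (s 7)) = 2 := by
    unfold fs at hs
    linarith
  have hA : 2 - Real.cos (s 4) - Real.cos (s 5) ≠ 0 := by
    intro h
    rw [h, zero_mul] at hAB
    norm_num at hAB
  have hB : 2 - Real.cos (s 6) - Real.cos (s 7) ≠ 0 := by
    intro h
    rw [h, mul_zero] at hAB
    norm_num at hAB
  have g4 := pm_one (h4.resolve_left hB)
  have g5 := pm_one (h5.resolve_left hB)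
  have g6 := pm_one (h6.resolve_left hA)
  have g7 := pm_one (h7.resolve_left hA)
  rcases g4 with g4 | g4 <;> rcases g5 with g5 | g5 <;> rcases g6 with g6 | g6 <;>
    rcases g7 with g7 | g7 <;> rw [g4, g5, g6, g7] at hAB <;> norm_num at hAB

end TC
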