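import Pool.Agent.TC.MfdStmts

/-!
# MFD_TOP: `Mq` is a compact Hausdorff space and `qM` is a quotient covering map
-/

set_option autoImplicit false

open scoped Topology
open Set

noncomputable section

namespace TC.TOP

theorem continuous_levelF : Continuous levelF := by
  unfold levelF
  have h : ∀ i : Fin 8, Continuous fun z : Fin 8 → Circle => ((z i : Circle) : ℂ).re := fun i =>
    Complex.continuous_re.comp (continuous_subtype_val.comp (continuous_apply i))
  have h4 := h 4
  have h5 := h 5
  have h6 := h 6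
  have h7 := h 7
  fun_prop

theorem isClosed_level : IsClosed {z : Fin 8 → Circle | levelF z = 2} :=
  isClosed_eq continuous_levelF continuous_const

instance t2Mh : T2Space Mh := inferInstanceAs (T2Space {z : Fin 8 → Circle // levelF z = 2})

instance compMh : CompactSpace Mh := isCompact_iff_compactSpace.mp isClosed_level.isCompact

theorem re_sq_add_im_sq (z : Circle) : (z : ℂ).re ^ 2 + (z : ℂ).im ^ 2 = 1 := by
  have h := Circle.normSq_coe z
  rw [Complex.normSq_apply] at h
  nlinarith

theorem sg_fix {a : ZMod 2} {x : ℝ} (h : sg a * x = x) (ha : a ≠ 0) : x = 0 := by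
  rw [sg, if_neg ha] at h
  linarith

theorem fix_re {a b : ZMod 2} {z : Circle} (h : flipC a b z = z) (ha : a ≠ 0) :
    (z : ℂ).re = 0 := by
  apply sg_fix _ ha
  rw [← flipC_re a b z, h]

theorem fix_im {a b : ZMod 2} {z : Circle} (h : flipC a b z = z) (hb : b ≠ 0) :
    (z : ℂ).im = 0 := by
  apply sg_fix _ hb
  rw [← flipC_im a b z, h]

theorem fix_eq {a b : ZMod 2} {z : Circle} (h : flipC a b z = z) (hab : a = b) : a = 0 := by
  by_contra ha
  have h1 := fix_re h ha
  have h2 := fix_im h (hab ▸ ha)
  have h3 := re_sq_add_im_sq z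
  rw [h1, h2] at h3
  norm_num at h3

theorem free (h : H5) (z : Mh) (hz : h +ᵥ z = z) : h = 0 := by
  have key : ∀ i, flipC (reS (chi12 h) i) (imS (chi12 h) i) (z.1 i) = z.1 i := by
    intro i
    rw [← vadd12_apply, ← vadd5_eq, hz]
  have h0 : h 0 = 0 := fix_eq (key 0) (by simp [imS, chi12])
  have h1 : h 1 = 0 := fix_eq (key 1) (by simp [imS, chi12])
  have h2 : h 2 = 0 := fix_eq (key 2) (by simp [imS, chi12, h1])
  have h3 : h 3 = 0 := fix_eq (key 3) (by simp [imS, chi12, h0])
  have h4 : h 4 = 0 := by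
    by_contra hn
    have im4 : ((z.1 4 : Circle) : ℂ).im = 0 := fix_im (key 4) (by simpa [imS, chi12] using hn)
    have im5 : ((z.1 5 : Circle) : ℂ).im = 0 :=
      fix_im (key 5) (by simpa [imS, chi12, h3] using hn)
    have im6 : ((z.1 6 : Circle) : ℂ).im = 0 :=
      fix_im (key 6) (by simpa [imS, chi12, h2] using hn)
    have im7 : ((z.1 7 : Circle) : ℂ).im = 0 :=
      fix_im (key 7) (by simpa [imS, chi12, h0, h1, h2, h3] using hn)
    have re1 : ∀ i, ((z.1 i : Circle) : ℂ).im = 0 →
        ((z.1 i : Circle) : ℂ).re = 1 ∨ ((z.1 i : Circle) : ℂ).re = -1 := by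
      intro i hi
      have h5 := re_sq_add_im_sq (z.1 i)
      rw [hi] at h5
      have h6 : (((z.1 i : Circle) : ℂ).re - 1) * (((z.1 i : Circle) : ℂ).re + 1) = 0 := by
        linarith
      rcases mul_eq_zero.1 h6 with h | h
      · exact Or.inl (by linarith)
      · exact Or.inr (by linarith)
    have hl := z.2
    unfold levelF at hl
    rcases re1 4 im4 with h4 | h4 <;> rcases re1 5 im5 with h5 | h5 <;>
      rcases re1 6 im6 with h6 | h6 <;> rcases re1 7 im7 with h7 | h7 <;>
      · rw [h4, h5, h6, h7] at hl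
        norm_num at hl
  funext i
  fin_cases i
  · exact h0
  · exact h1
  · exact h2
  · exact h3
  · exact h4

instance cancel : IsCancelVAdd H5 Mh :=
  isCancelVAdd_iff_eq_zero_of_vadd_eq.mpr fun h z hz => free h z hz

end TC.TOP

namespace TC

/-- MFD_TOP -/
theorem top_main : TOP_main := by
  refine ⟨?_, ?_, ?_⟩
  · exact inferInstanceAs (T2Space (Quotient (AddAction.orbitRel H5 Mh)))
  · exact inferInstanceAs (CompactSpace (Quotient (AddAction.orbitRel H5 Mh)))
  · exact isAddQuotientCoveringMap_quotientMk_of_properlyDiscontinuousVAdd (G := H5) (E := Mh)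

end TC
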